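import Pool.Agent.MP_e4b752_al.Sharp

open Pool.Agent.MP_e4b752_al

/-- The least rank `ρ` from which on the formula `2 n - r` gives the minimum degree of every
variant `T_n^a` is `√n` up to an error of order `n ^ (1 / 3)`. -/
theorem Pool.Agent.Results.MP_e4b752_al.SharpThreshold.result (n : ℕ) (hn : 1 ≤ n) :
    ∃ ρ : ℕ, IsLeast {r₀ : ℕ | ∀ a : Fin n → Fin n, r₀ ≤ Nat.card (Set.range a) →
        IsLeast {m : ℕ | 1 ≤ m ∧ ∃ f : (Fin n → Fin n) → (Fin m → Fin m),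
          Function.Injective f ∧ ∀ x y, f (x ∘ a ∘ y) = f x ∘ f y}
          (2 * n - Nat.card (Set.range a))} ρ ∧
      √n - 60 * (n : ℝ) ^ (1 / 3 : ℝ) ≤ ρ ∧ (ρ : ℝ) ≤ max 14 (√n + 2) := by
  simp only [card_range]
  exact Thr.sharp n hn
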