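import Mathlib
import Pool.Agent.MP_e4b752_al.Embed

namespace Pool.Agent.Results.MP_e4b752_al.SmallDegree

/-- For every rank `r ≥ 2` and every `ε > 0`, for all large `n`: maps of rank `r` exist in `T_n`,
and for each such map `a` the variant `T_n^a` (product `x ∘ a ∘ y`) embeds in some `T_m` with
`1 ≤ m < 2 n - r` and `m ≤ (1 + ε) n`. -/
theorem result (r : ℕ) (hr : 2 ≤ r) (ε : ℝ) (hε : 0 < ε) :
    ∃ N : ℕ, ∀ n : ℕ, N ≤ n →
      (∃ a : Fin n → Fin n, Nat.card (Set.range a) = r) ∧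
      ∀ a : Fin n → Fin n, Nat.card (Set.range a) = r →
        ∃ m : ℕ, 1 ≤ m ∧ m < 2 * n - r ∧ (m : ℝ) ≤ (1 + ε) * n ∧
          ∃ f : (Fin n → Fin n) → (Fin m → Fin m),
            Function.Injective f ∧ ∀ x y, f (x ∘ a ∘ y) = f x ∘ f y :=
  Pool.Agent.MP_e4b752_al.main r hr ε hε

end Pool.Agent.Results.MP_e4b752_al.SmallDegree
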